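import Mathlib

/-!
A uniform gap for strict inequalities between numbers with bounded denominators.
-/

set_option autoImplicit false

namespace Pool.Agent.X180.Multi

theorem exists_den {ι : Type*} {S : Set ι} {Δ : ι → ℚ} (hfin : {P | P ∈ S ∧ Δ P ≠ 0}.Finite) :
    ∃ D : ℕ, 0 < D ∧ ∀ P ∈ S, ∃ z : ℤ, Δ P * D = z := by
  classical
  refine ⟨∏ P ∈ hfin.toFinset, (Δ P).den, Finset.prod_pos fun P _ => (Δ P).den_pos, fun P hP => ?_⟩
  by_cases h0 : Δ P = 0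
  · exact ⟨0, by rw [h0]; simp⟩
  · have hmem : P ∈ hfin.toFinset := hfin.mem_toFinset.2 ⟨hP, h0⟩
    refine ⟨(Δ P).num * ∏ Q ∈ hfin.toFinset.erase P, ((Δ Q).den : ℤ), ?_⟩
    rw [← Finset.mul_prod_erase _ _ hmem]
    push_cast
    rw [← mul_assoc, Rat.mul_den_eq_num]

theorem exists_den_sum {m : ℕ} (d : Fin m → ℕ) (hd : ∀ i, 1 ≤ d i) :
    ∃ T : ℕ, 0 < T ∧ ∀ v : Fin m → ℕ, ∃ z : ℤ, (∑ i, (v i : ℚ) / d i) * T = z := by
  classical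
  refine ⟨∏ i, d i, Finset.prod_pos fun i _ => hd i, fun v =>
    ⟨∑ i, v i * ∏ j ∈ Finset.univ.erase i, (d j : ℤ), ?_⟩⟩
  rw [Finset.sum_mul]
  push_cast
  refine Finset.sum_congr rfl fun i _ => ?_
  rw [← Finset.mul_prod_erase _ _ (Finset.mem_univ i)]
  have h1 : (d i : ℚ) ≠ 0 := by
    have := hd i
    positivity
  field_simp

/-- **The gap.** -/
theorem gap {m : ℕ} (d : Fin m → ℕ) (hd : ∀ i, 1 ≤ d i) {ι : Type*} {S : Set ι} {Δ : ι → ℚ}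
    (hΔ : ∀ P ∈ S, 0 ≤ Δ P) (hfin : {P | P ∈ S ∧ Δ P ≠ 0}.Finite) :
    ∃ τ : ℚ, 1 < τ ∧ ∀ P ∈ S, ∀ v : Fin m → ℕ, 1 - Δ P < ∑ i, (v i : ℚ) / d i →
      τ * (1 - Δ P) ≤ ∑ i, (v i : ℚ) / d i := by
  obtain ⟨D, hD, h1⟩ := exists_den hfin
  obtain ⟨T, hT, h2⟩ := exists_den_sum d hd
  have hD' : (0 : ℚ) < D := by exact_mod_cast hD
  have hT' : (0 : ℚ) < T := by exact_mod_cast hT
  have hTD : (0 : ℚ) < T * D := mul_pos hT' hD'
  refine ⟨1 + 1 / (T * D), by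
    have : (0 : ℚ) < 1 / (T * D) := by positivity
    linarith, fun P hP v hlt => ?_⟩
  obtain ⟨z, hz⟩ := h1 P hP
  obtain ⟨w, hw⟩ := h2 v
  obtain ⟨σ, hσ⟩ : ∃ σ : ℚ, σ = ∑ i, (v i : ℚ) / d i := ⟨_, rfl⟩
  rw [← hσ] at hlt hw ⊢
  have h3 : (1 - Δ P) * (T * D) = ((T * D - z * T : ℤ) : ℚ) := by
    push_cast
    rw [← hz]
    ring
  have h4 : σ * (T * D) = ((w * D : ℤ) : ℚ) := by
    push_cast
    rw [← hw]
    ring
  have h5 : (1 - Δ P) * (T * D) < σ * (T * D) := mul_lt_mul_of_pos_right hlt hTD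
  rw [h3, h4] at h5
  have h6 : (T * D - z * T : ℤ) + 1 ≤ w * D := by
    have : (T * D - z * T : ℤ) < w * D := by exact_mod_cast h5
    omega
  have h7 : (1 - Δ P) * (T * D) + 1 ≤ σ * (T * D) := by
    rw [h3, h4]
    exact_mod_cast h6
  have h8 : (1 - Δ P) + 1 / (T * D) ≤ σ := by
    rw [← sub_nonneg]
    have e1 : σ - ((1 - Δ P) + 1 / (T * D)) =
        (σ * (T * D) - ((1 - Δ P) * (T * D) + 1)) / (T * D) := by
      field_simp
    rw [e1]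
    exact div_nonneg (by linarith) hTD.le
  have h9 : (1 / (T * D) : ℚ) * (1 - Δ P) ≤ 1 / (T * D) := by
    have h10 : (0 : ℚ) ≤ 1 / (T * D) := by positivity
    have := hΔ P hP
    nlinarith
  nlinarith

end Pool.Agent.X180.Multi
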