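import Pool.Agent.X180.Multi.Fib
import Pool.Agent.X180.Iso.SysPair

/-!
Products of projective spaces with arrangements, for pairs.
-/

set_option autoImplicit false
set_option linter.overlappingInstances false

open FF Module Pool.Agent.W602.Cov Pool.Agent.W602.Cov.G Pool.Agent.W602.GT Pool.Agent.Y172
open Pool.Agent.Y191 (KodairaGe)
open Pool.Agent.TH585.SV Pool.Agent.X180.Iso

namespace Pool.Agent.X180.Multi

variable {m : ℕ} {n q : Fin m → ℕ} {K : Type} [Field K] [Algebra ℂ K]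

/-- The affine coordinates `x i (j + 1) / x i 0` of the points with the homogeneous coordinates
`x i`. -/
def aff (x : ∀ i, Fin (n i + 1) → K) (b : (i : Fin m) × Fin (n i)) : K :=
  x b.1 b.2.succ / x b.1 0

/-- The function field of the product of the projective spaces. -/
noncomputable def BF (x : ∀ i, Fin (n i + 1) → K) : IntermediateField ℂ K :=
  IntermediateField.adjoin ℂ (Set.range (aff x))

theorem trdeg_BF {x : ∀ i, Fin (n i + 1) → K} (hind : AlgebraicIndependent ℂ (aff x)) :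
    Algebra.trdeg ℂ (BF x) = (∑ i, n i : ℕ) := by
  let e : ((i : Fin m) × Fin (n i)) ≃ Fin (∑ i, n i) := finSigmaFinEquiv
  have h2 := trdeg_adjoin (hind.comp e.symm e.symm.injective)
  have hrange : Set.range (aff x ∘ e.symm) = Set.range (aff x) :=
    e.symm.surjective.range_comp (aff x)
  rw [hrange] at h2
  exact h2

/-- the value of a linear form relative to the first coordinate is in the base field -/
theorem lf_div_mem {x : ∀ i, Fin (n i + 1) → K} (hx0 : ∀ i, x i 0 ≠ 0) (i : Fin m)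
    (φ : Form (n i)) : lf φ (x i) / x i 0 ∈ BF x := by
  have h1 : lf φ (x i) / x i 0 = ∑ j, algebraMap ℂ K (φ (Pi.single j 1)) * (x i j / x i 0) := by
    unfold lf
    rw [Finset.sum_div]
    refine Finset.sum_congr rfl fun j _ => ?_
    rw [mul_div_assoc]
  rw [h1]
  refine sum_mem fun j _ => mul_mem (IntermediateField.algebraMap_mem _ _) ?_
  refine Fin.cases ?_ (fun j => ?_) j
  · rw [div_self (hx0 i)]
    exact one_mem _
  · exact IntermediateField.subset_adjoin _ _ ⟨⟨i, j⟩, rfl⟩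

/-- **Products of projective spaces and forms along the fibres, for pairs.** -/
theorem multi_pair {s lam : ℕ} {ℓ : ∀ i, Fin (q i) → Form (n i)}
    (hn : ∀ i, 1 ≤ n i) (hℓ : ∀ i k, ℓ i k ≠ 0) (hr : ∀ i, ¬ Reducible (ℓ i)) {d : Fin m → ℕ}
    (hd : ∀ i, Pool.Agent.TH756.PR.Bnd (ℓ i) (d i)) {x : ∀ i, Fin (n i + 1) → K}
    (hx0 : ∀ i, x i 0 ≠ 0) (hind : AlgebraicIndependent ℂ (aff x))
    (hK : Algebra.trdeg ℂ K = (∑ i, n i + s : ℕ)) {X : Set (Place ℂ K)} {δ : Place ℂ K → ℝ}
    (hδ : ∀ P ∈ X, 0 ≤ δ P) {τ : ℝ} (hτ : 1 ≤ τ)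
    (hP : ∀ P ∈ X, Divisorial (∑ i, n i + s) P → High ℓ x d (τ * (1 - δ P)) P)
    (hθ : ∃ M : ℕ, 0 < M ∧ ∃ θ : Fin (lam + 1) → (Fin s → Derivation (BF x) K K) → K,
      (∀ b, FibSec (∑ i, n i + s) M X (hor (BF x) δ) (BF x) (θ b)) ∧ ∃ G, θ 0 G ≠ 0 ∧
        AlgebraicIndependent (BF x) (fun i : Fin lam => θ i.succ G / θ 0 G)) :
    KodairaGe (∑ i, n i + s) X δ lam ∧
      (1 < τ → KodairaGe (∑ i, n i + s) X δ (∑ i, n i + lam)) := by
  classical
  obtain ⟨M, hM, θ, hθ, hne⟩ := hθ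
  have hd1 : ∀ i, 1 ≤ d i := fun i => by
    rcases hd i with h | h
    · omega
    · omega
  have hspan : ∀ i, Submodule.span ℂ (Set.range (ℓ i)) = ⊤ := fun i =>
    Pool.Agent.W392.CG.span_top (hn i) (ℓ i) (hr i)
  have hlx : ∀ i k, lf (ℓ i k) (x i) ≠ 0 := fun i k =>
    Pool.Agent.TH152.AC.lf_ne (hx0 i) (hind.comp
      (fun j : Fin (n i) => (⟨i, j⟩ : (i : Fin m) × Fin (n i))) (fun j j' h => by simpa using h))
      (hℓ i k)
  let e : ((i : Fin m) × Fin (n i)) ≃ Fin (∑ i, n i) := finSigmaFinEquiv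
  have huu : AlgebraicIndependent ℂ (Pool.Agent.TH756.PR.uu e x) :=
    hind.comp e.symm e.symm.injective
  have hrange : Set.range (Pool.Agent.TH756.PR.uu e x) = Set.range (aff x) :=
    e.symm.surjective.range_comp (aff x)
  refine multi_fib (X := X) e d hd1 hspan
    (fun i => Pool.Agent.TH756.PR.slack_of_bnd (hn i) (hℓ i) (hr i) (hd i)) hlx hx0 huu hK
    (trdeg_BF hind)
    (fun j => IntermediateField.subset_adjoin ℂ _ ⟨e.symm j, rfl⟩)
    (fun f hf => by
      rw [hrange]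
      exact isAlgebraic_of_mem_adjoin hf)
    (δ₁ := ver (BF x) δ) (δ₂ := hor (BF x) δ) (δ := δ) (fun P hP => by
      unfold ver
      split_ifs
      · exact le_rfl
      · exact hδ P hP) (fun P _ => by
      unfold ver hor
      split_ifs <;> simp) hτ (fun P hPX hPd a v hord hsp hv0 => ?_) hM hθ hne
  by_cases htriv : ∀ f ∈ BF x, f ≠ 0 → P.ord f = 0
  · exfalso
    have h1 : ∀ i k, (a i : ℤ) + v i k = P.ord (x i 0) := by
      intro i k
      have h2 := htriv _ (lf_div_mem hx0 i (ℓ i k)) (div_ne_zero (hlx i k) (hx0 i))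
      rw [P.ord_div (hlx i k) (hx0 i), hord i k] at h2
      omega
    obtain ⟨i, hi⟩ := hv0
    obtain ⟨k, hk⟩ := Function.ne_iff.1 hi
    apply hsp i
    have h2 : {k | v i k ≠ 0} = Set.univ := by
      refine Set.eq_univ_of_forall fun k' => ?_
      have h3 := h1 i k
      have h4 := h1 i k'
      have h5 : v i k' = v i k := by omega
      change v i k' ≠ 0
      rw [h5]
      exact hk
    rw [h2, Set.image_univ]
    exact hspan i
  · have h1 : ver (BF x) δ P = δ P := by
      rw [ver, if_neg htriv]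
    rw [h1]
    exact hP P hPX hPd a v hord hsp hv0

end Pool.Agent.X180.Multi
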