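import Pool.Agent.X180.Multi.Base

/-!
Sections of `N (K_X + Δ)` for pairs with a dominant map to a product of projective spaces, with
multiplicities over arrangements, and pluricanonical forms along the fibres.
-/

set_option autoImplicit false

open FF Module Pool.Agent.W603.LV Pool.Agent.W602.GT Pool.Agent.W602.Cov Pool.Agent.W602.Cov.G
open Pool.Agent.W168.CG.PGR Pool.Agent.TH152.AC Pool.Agent.TH756.AR Pool.Agent.TH756.PR
open Pool.Agent.TH585.SV Pool.Agent.Y191

namespace Pool.Agent.X180.Multi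

variable {r d s lam : ℕ} {n : Fin r → ℕ} {K : Type} [Field K] [Algebra ℂ K]
  (e : ((i : Fin r) × Fin (n i)) ≃ Fin d) {q : Fin r → ℕ} {ℓ : ∀ i, Fin (q i) → Form (n i)}

/-- a frame adapted to a transcendence basis of a subfield -/
theorem exists_frame_sub {L : IntermediateField ℂ K} {p : ℕ}
    (hK : Algebra.trdeg ℂ K = (p + s : ℕ)) (htr : Algebra.trdeg ℂ L = p) {x : Fin p → K}
    (hx : AlgebraicIndependent ℂ x) (hxL : ∀ j, x j ∈ L)
    (halg : ∀ f ∈ L, IsAlgebraic (IntermediateField.adjoin ℂ (Set.range x)) f) :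
    ∃ (u : Fin s → K) (Dt : Fin p → Derivation ℂ K K) (Du : Fin s → Derivation ℂ K K),
      Frame x u Dt Du ∧ ∀ f ∈ L, Hz Du f := by
  classical
  obtain ⟨xL, hxL'⟩ : ∃ xL : Fin p → L, ∀ j, (xL j : K) = x j :=
    ⟨fun j => ⟨x j, hxL j⟩, fun _ => rfl⟩
  have hindL : AlgebraicIndependent ℂ xL := by
    refine AlgebraicIndependent.of_comp L.val ?_
    have : (L.val ∘ xL) = x := funext hxL'
    rw [this]
    exact hx
  have htrs : Algebra.trdeg L K = s := by
    have h1 := trdeg_add_eq ℂ L (A := K)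
    rw [htr, hK] at h1
    push_cast at h1
    rw [add_comm, add_comm (p : Cardinal)] at h1
    exact (Cardinal.add_right_inj_of_lt_aleph0 (Cardinal.natCast_lt_aleph0 (n := p))).mp h1
  obtain ⟨t, ht⟩ := exists_isTranscendenceBasis L K
  have h1 := ht.cardinalMk_eq_trdeg
  rw [htrs] at h1
  obtain ⟨φ⟩ : Nonempty (Fin s ≃ t) := by
    rw [← Cardinal.eq, Cardinal.mk_fin]
    exact h1.symm
  obtain ⟨u, hu⟩ : ∃ u : Fin s → K, IsTranscendenceBasis L u :=
    ⟨fun i => (φ i : K), ht.comp_equiv φ⟩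
  have h2 := hindL.sumElim_comp hu.1
  have h3 : (algebraMap L K ∘ xL) = x := funext hxL'
  rw [h3] at h2
  have h4 : AlgebraicIndependent ℂ (Sum.elim x u) := by
    have := h2.comp (Equiv.sumComm (Fin p) (Fin s)) (Equiv.injective _)
    have h5 : (Sum.elim u x) ∘ (Equiv.sumComm (Fin p) (Fin s)) = Sum.elim x u := by
      funext i
      rcases i with i | i <;> rfl
    rwa [h5] at this
  have h6 : IsTranscendenceBasis ℂ (Sum.elim x u) := by
    refine h4.isTranscendenceBasis_of_trdeg_le ?_ ?_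
    · rw [hK]
      exact Cardinal.natCast_lt_aleph0
    · rw [hK, Cardinal.mk_sum, Cardinal.mk_fin, Cardinal.mk_fin]
      push_cast
      simp
  obtain ⟨Dt, Du, F⟩ := exists_frame h6
  exact ⟨u, Dt, Du, F, fun f hf l => der_alg0 (Du l) (S := Set.range x) (by
    rintro _ ⟨j, rfl⟩
    exact F.ut l j) (halg f hf)⟩

open scoped IntermediateField.algebraAdjoinAdjoin in
theorem trdeg_adjoin {p : ℕ} {t : Fin p → K} (ht : AlgebraicIndependent ℂ t) :
    Algebra.trdeg ℂ (IntermediateField.adjoin ℂ (Set.range t)) = p := by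
  have e := ht.aevalEquiv
  have h1 : Algebra.trdeg ℂ (Algebra.adjoin ℂ (Set.range t)) = p := by
    rw [← e.trdeg_eq, MvPolynomial.trdeg_of_isDomain, Cardinal.lift_id, Cardinal.mk_fin]
  have h2 : Algebra.IsAlgebraic (Algebra.adjoin ℂ (Set.range t))
      (IntermediateField.adjoin ℂ (Set.range t)) := inferInstance
  have h3 := trdeg_add_eq ℂ (Algebra.adjoin ℂ (Set.range t))
    (A := IntermediateField.adjoin ℂ (Set.range t))
  rw [_root_.trdeg_eq_zero_iff.2 h2, add_zero, h1] at h3
  exact h3.symm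

/-- the multiplicities at the place `P` -/
def High (ℓ : ∀ i, Fin (q i) → Form (n i)) (x : ∀ i, Fin (n i + 1) → K) (d : Fin r → ℕ)
    (τ : ℝ) (P : Place ℂ K) : Prop :=
  ∀ (a : Fin r → ℤ) (v : ∀ i, Fin (q i) → ℕ), (∀ i k, P.ord (lf (ℓ i k) (x i)) = a i + v i k) →
    (∀ i, Submodule.span ℂ (ℓ i '' {k | v i k ≠ 0}) ≠ ⊤) → (∃ i, v i ≠ 0) →
      ∃ k : ∀ i, Fin (q i), τ ≤ ∑ i, (v i (k i) : ℝ) / d i

/-- the factor of the form -/
noncomputable def fac (ℓ : ∀ i, Fin (q i) → Form (n i)) (x : ∀ i, Fin (n i + 1) → K)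
    (p : ∀ i, Bases (ℓ i) → ℕ) (t : Fin r → ℕ) (T : ℕ) : K :=
  (∏ i, x i 0 ^ (n i + 1)) ^ T / ∏ i, den (ℓ i) (x i) (p i) (t i)

theorem pp_eq (x : ∀ i, Fin (n i + 1) → K) (p : ∀ i, Bases (ℓ i) → ℕ) (t : Fin r → ℕ) (T : ℕ)
    (E : Fin d → Derivation ℂ K K) :
    pp e ℓ x p t T E = (mtx (uu e x) E).det ^ T * fac ℓ x p t T := by
  unfold pp Pool.Agent.TH756.PR.om fac
  have h1 : (Matrix.of fun a b : Fin d => E a (uu e x b)) = mtx (uu e x) E := rfl
  rw [h1, mul_pow]
  ring

/-- **Products of projective spaces and forms along the fibres.** -/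
theorem multi_fib (D : Fin r → ℕ) (hD : ∀ i, 1 ≤ D i)
    (hspan : ∀ i, Submodule.span ℂ (Set.range (ℓ i)) = ⊤) (hsl : ∀ i, Slack (ℓ i) (D i))
    {x : ∀ i, Fin (n i + 1) → K} (hlx : ∀ i k, lf (ℓ i k) (x i) ≠ 0) (hx0 : ∀ i, x i 0 ≠ 0)
    (hbas : AlgebraicIndependent ℂ (uu e x)) {L : IntermediateField ℂ K}
    (hK : Algebra.trdeg ℂ K = (d + s : ℕ)) (htr : Algebra.trdeg ℂ L = d)
    (hxL : ∀ j, uu e x j ∈ L)
    (halg : ∀ f ∈ L, IsAlgebraic (IntermediateField.adjoin ℂ (Set.range (uu e x))) f)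
    {X : Set (Place ℂ K)} {δ₁ δ₂ δ : Place ℂ K → ℝ} (hδ₁ : ∀ P ∈ X, 0 ≤ δ₁ P)
    (hδ : ∀ P ∈ X, δ₁ P + δ₂ P ≤ δ P) {τ : ℝ} (hτ : 1 ≤ τ)
    (hP : ∀ P ∈ X, Divisorial (d + s) P → High ℓ x D (τ * (1 - δ₁ P)) P)
    {m : ℕ} (hm : 0 < m) {θ : Fin (lam + 1) → (Fin s → Derivation L K K) → K}
    (hθ : ∀ j, FibSec (d + s) m X δ₂ L (θ j))
    (hne : ∃ G, θ 0 G ≠ 0 ∧ AlgebraicIndependent L (fun i : Fin lam => θ i.succ G / θ 0 G)) :
    Pool.Agent.Y191.KodairaGe (d + s) X δ lam ∧
      (1 < τ → Pool.Agent.Y191.KodairaGe (d + s) X δ (d + lam)) := by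
  classical
  choose p hp0 hp using hsl
  have B0 : ∀ i, Bases (ℓ i) := fun i => Classical.choice (exists_bases (hspan i))
  have k0 : ∀ i, Fin (q i) := fun i => (B0 i).1 0
  obtain ⟨u, Dt, Du, F, hHz⟩ := exists_frame_sub (s := s) hK htr hbas hxL halg
  have hS : 0 < ∏ i, ∑ B, p i B := Finset.prod_pos fun i _ => hp0 i
  have hfac : ∀ (t : Fin r → ℕ) (T : ℕ), fac ℓ x p t T ≠ 0 := fun t T =>
    div_ne_zero (pow_ne_zero _ (Finset.prod_ne_zero_iff.2 fun i _ => pow_ne_zero _ (hx0 i)))
      (dens_ne hlx p t)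
  constructor
  · obtain ⟨t, T, hTeq, hT⟩ := exists_weights 1 p
    have hTpos : 0 < T := by
      rw [hTeq, one_mul]
      exact hS
    have hTr : (0 : ℝ) < T := by exact_mod_cast hTpos
    obtain ⟨ω, h1, D', h2, h3⟩ := F.pairs (κ := 0) (w := fun _ => 1) hHz hxL hδ hm
      (fun b => (hθ b).1) (fun P hPX hPd G hG b => (hθ b).2 P hPX hPd G hG) hne
      (M := T) hTpos (f := fac ℓ x p t T) (hfac t T) rfl
      (by
        rw [algebraicIndependent_empty_type_iff]
        exact (algebraMap ℂ K).injective) (fun _ => one_mem _)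
      (fun P hPX hPd E hE _ => by
        obtain ⟨a, v, hv, -, hsp, c, hc, hc2⟩ := pp_ord' e D hD p hp hspan t T hT hlx hx0 hbas P E 1
          (om_reg e P hE).1 (om_reg e P hE).2
        rw [pp_eq] at hc
        refine ⟨c, by rwa [mul_one], ?_⟩
        have h0 := hδ₁ P hPX
        rcases hc2 with ⟨-, h⟩ | ⟨hv0, h⟩
        · have h4 : (0 : ℝ) ≤ c := by exact_mod_cast h
          nlinarith
        · obtain ⟨k, hk⟩ := hP P hPX hPd a v hv hsp hv0
          have h4 := (Rat.cast_le (K := ℝ)).2 (h k)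
          push_cast at h4
          have hS0 : (0 : ℝ) ≤ ∑ i, (v i (k i) : ℝ) / D i := by positivity
          have h5 : (1 - δ₁ P) ≤ ∑ i, (v i (k i) : ℝ) / D i := by
            by_cases h6 : 0 ≤ 1 - δ₁ P
            · nlinarith
            · linarith
          have h6 := mul_le_mul_of_nonneg_left h5 hTr.le
          nlinarith)
    have e0 : 0 + lam + 1 = lam + 1 := by omega
    refine ⟨T * m, Nat.mul_pos hTpos hm, fun j => ω (Fin.cast e0.symm j),
      fun j => h1 _, D', h2, ?_⟩
    have hl : lam = 0 + lam := by omega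
    have h4 := h3.comp (Fin.cast hl) (Fin.cast_injective hl)
    exact h4
  · intro hτ1
    obtain ⟨M, hM⟩ : ∃ M, M = ∏ i, D i := ⟨_, rfl⟩
    have hMpos : 0 < M := by
      rw [hM]
      exact Finset.prod_pos fun i _ => hD i
    obtain ⟨T0, hT0⟩ : ∃ T0 : ℕ, T0 = ⌈(M : ℝ) * (τ / (τ - 1))⌉₊ + 1 := ⟨_, rfl⟩
    obtain ⟨t, T, hTeq, hT⟩ := exists_weights T0 p
    have hTpos : 0 < T := by
      rw [hTeq]
      exact Nat.mul_pos (by omega) hS
    have hTT0 : T0 ≤ T := by
      rw [hTeq]
      exact Nat.le_mul_of_pos_right _ hS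
    have hTr : (0 : ℝ) < T := by exact_mod_cast hTpos
    have hMr : (0 : ℝ) < M := by exact_mod_cast hMpos
    have hτ0 : 0 < τ - 1 := by linarith
    have hTM : (M : ℝ) * τ ≤ T * (τ - 1) := by
      have h1 : (M : ℝ) * (τ / (τ - 1)) ≤ T := by
        refine (Nat.le_ceil _).trans ?_
        have : ⌈(M : ℝ) * (τ / (τ - 1))⌉₊ ≤ T := by omega
        exact_mod_cast this
      rw [← mul_div_assoc, div_le_iff₀ hτ0] at h1
      exact h1
    have hdM : ∀ i, (D i : ℝ) ≤ M := by
      intro i
      rw [hM]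
      exact_mod_cast Nat.le_of_dvd (Finset.prod_pos fun i _ => hD i)
        (Finset.dvd_prod_of_mem D (Finset.mem_univ i))
    obtain ⟨l, hl⟩ : ∃ l : Fin r → K, l = fun i => lf (ℓ i (k0 i)) (x i) := ⟨_, rfl⟩
    have hlne : ∀ i, l i ≠ 0 := fun i => by
      rw [hl]
      exact hlx i _
    obtain ⟨g, hg⟩ : ∃ g : Fin (d + 1) → K, g = fun b => ∏ i, x i (pick e b i) / l i := ⟨_, rfl⟩
    have hg0 : g 0 ≠ 0 := by
      rw [hg]
      exact Finset.prod_ne_zero_iff.2 fun i _ => div_ne_zero (hx0 i) (hlne i)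
    obtain ⟨w, hw⟩ : ∃ w : Fin (d + 1) → K, w = fun b => g b / g 0 := ⟨_, rfl⟩
    have hwx : (fun i : Fin d => w i.succ) = uu e x := by
      funext b
      rw [hw, hg]
      exact pick_ratio e hx0 hlne b
    obtain ⟨ω, h1, D', h2, h3⟩ := F.pairs (κ := d) (w := w) hHz hxL hδ hm
      (fun b => (hθ b).1) (fun P hPX hPd G hG b => (hθ b).2 P hPX hPd G hG) hne
      (M := T) hTpos (f := fac ℓ x p t T * g 0) (mul_ne_zero (hfac t T) hg0)
      (by rw [hw]; exact div_self hg0)
      (by rw [hwx]; exact hbas)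
      (fun j => by
        refine Fin.cases ?_ (fun j => ?_) j
        · rw [hw]
          dsimp only
          rw [div_self hg0]
          exact one_mem _
        · have h5 : w j.succ = uu e x j := congrFun hwx j
          rw [h5]
          exact hxL j)
      (fun P hPX hPd E hE b => by
        obtain ⟨a, v, hv, hx, hsp, c, hc, hc2⟩ := pp_ord' e D hD p hp hspan t T hT hlx hx0 hbas
          P E 1 (om_reg e P hE).1 (om_reg e P hE).2
        rw [pp_eq] at hc
        have h5 : ∀ i, Ge P (-(v i (k0 i) : ℤ)) (x i (pick e b i) / l i) := by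
          intro i
          have h6 := ge_div (hlne i) (hx i (pick e b i))
          rw [hl] at h6
          rw [hl]
          simp only [hv] at h6
          exact h6.mono (by linarith)
        have h7 := hc.mul (Ge.prod Finset.univ (fun i => x i (pick e b i) / l i)
          (fun i => -(v i (k0 i) : ℤ)) (fun i _ => h5 i))
        refine ⟨c + ∑ i, -(v i (k0 i) : ℤ), ?_, ?_⟩
        · have h8 : (mtx (uu e x) E).det ^ T * (fac ℓ x p t T * g 0 * w b) =
              (mtx (uu e x) E).det ^ T * fac ℓ x p t T * ∏ i, x i (pick e b i) / l i := by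
            rw [hw]
            dsimp only
            rw [mul_assoc (fac ℓ x p t T), mul_div_cancel₀ _ hg0, hg]
            ring
          rw [h8]
          exact h7
        · have h0 := hδ₁ P hPX
          push_cast
          rw [Finset.sum_neg_distrib]
          rcases hc2 with ⟨hv0, h⟩ | ⟨hv0, h⟩
          · have h4 : (0 : ℝ) ≤ c := by exact_mod_cast h
            have h8 : ∑ i, (v i (k0 i) : ℝ) = 0 := by
              refine Finset.sum_eq_zero fun i _ => ?_
              rw [hv0 i]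
              simp
            rw [h8]
            nlinarith
          · obtain ⟨k1, hk1⟩ := hP P hPX hPd a v hv hsp hv0
            obtain ⟨k, hkdef⟩ : ∃ k : ∀ i, Fin (q i),
              k = fun i => if v i (k0 i) ≤ v i (k1 i) then k1 i else k0 i := ⟨_, rfl⟩
            have hka : ∀ i, v i (k0 i) ≤ v i (k i) := by
              intro i
              rw [hkdef]
              dsimp only
              split_ifs with h'
              · exact h'
              · exact le_rfl
            have hkb : ∀ i, v i (k1 i) ≤ v i (k i) := by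
              intro i
              rw [hkdef]
              dsimp only
              split_ifs with h'
              · exact le_rfl
              · omega
            obtain ⟨S, hSdef⟩ : ∃ S : ℝ, S = ∑ i, (v i (k i) : ℝ) / D i := ⟨_, rfl⟩
            have hSgt : τ * (1 - δ₁ P) ≤ S := by
              rw [hSdef]
              refine hk1.trans (Finset.sum_le_sum fun i _ => ?_)
              have hdi : (0 : ℝ) < D i := by exact_mod_cast hD i
              exact div_le_div_of_nonneg_right (by exact_mod_cast hkb i) hdi.le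
            have hS2 : ∑ i, (v i (k0 i) : ℝ) ≤ M * S := by
              rw [hSdef, Finset.mul_sum]
              refine Finset.sum_le_sum fun i _ => ?_
              have hdi : (0 : ℝ) < D i := by exact_mod_cast hD i
              rw [mul_div_assoc', le_div_iff₀ hdi, mul_comm]
              exact mul_le_mul (hdM i) (by exact_mod_cast hka i) (by positivity) hMr.le
            have hS0 : 0 ≤ S := by
              rw [hSdef]
              positivity
            have h4 := (Rat.cast_le (K := ℝ)).2 (h k)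
            push_cast at h4
            rw [← hSdef] at h4
            -- `T (S - (1 - δ)) τ ≥ T S (τ - 1) ≥ M τ S`
            have h8 : (M : ℝ) * τ * S ≤ T * (τ - 1) * S := mul_le_mul_of_nonneg_right hTM hS0
            have h9 : (T : ℝ) * (τ * (1 - δ₁ P)) ≤ T * S := mul_le_mul_of_nonneg_left hSgt hTr.le
            have h10 : τ * (M * S) ≤ τ * (c + T * δ₁ P) := by nlinarith
            have h11 : M * S ≤ c + T * δ₁ P := le_of_mul_le_mul_left h10 (by linarith)
            linarith)
    exact ⟨T * m, Nat.mul_pos hTpos hm, ω, h1, D', h2, h3⟩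

end Pool.Agent.X180.Multi
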