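import Pool.Agent.TH756.PR.Fin
import Pool.Agent.Y191.SmallFib

/-!
The pluricanonical forms of a product of projective spaces on a variety with a dominant map to it.
-/

set_option autoImplicit false

open FF Module Pool.Agent.W603.LV Pool.Agent.W602.GT Pool.Agent.W602.Cov Pool.Agent.W602.Cov.G
open Pool.Agent.W168.CG.PGR Pool.Agent.TH152.AC Pool.Agent.TH756.AR Pool.Agent.TH756.PR

namespace Pool.Agent.X180.Multi

variable {r N : ℕ} {n : Fin r → ℕ} {K : Type} [Field K] [Algebra ℂ K]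

theorem der_expand' {t : Fin N → K} {D0 : Fin N → Derivation ℂ K K}
    (hD0 : ∀ a b, D0 a (t b) = if a = b then 1 else 0)
    (E : Derivation ℂ K K) {g : K}
    (hg : IsAlgebraic (IntermediateField.adjoin ℂ (Set.range t)) g) :
    E g = ∑ c, E (t c) * D0 c g := by
  have h3 : ∀ (s : Finset (Fin N)) (z : K), (∑ k ∈ s, E (t k) • D0 k) z =
      ∑ k ∈ s, E (t k) * D0 k z := by
    intro s z
    induction s using Finset.induction_on with
    | empty => simp
    | insert a s ha ih =>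
      rw [Finset.sum_insert ha, Finset.sum_insert ha, Derivation.add_apply, ih,
        Derivation.smul_apply, smul_eq_mul]
  have h1 := Pool.Agent.Y191.der_alg0 (E - ∑ c, E (t c) • D0 c) (S := Set.range t) (by
    rintro _ ⟨b, rfl⟩
    rw [Derivation.sub_apply, h3]
    simp [hD0]) hg
  rw [Derivation.sub_apply, h3, sub_eq_zero] at h1
  exact h1

variable (e : ((i : Fin r) × Fin (n i)) ≃ Fin N)

/-- dual vector fields of algebraically independent elements -/
theorem exists_dual' {t : Fin N → K} (ht : AlgebraicIndependent ℂ t) :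
    ∃ D0 : Fin N → Derivation ℂ K K, ∀ a b, D0 a (t b) = if a = b then 1 else 0 := by
  classical
  obtain ⟨s, h1, h2⟩ := exists_isTranscendenceBasis_superset (algebraicIndependent_subtype_range
    ht.injective |>.2 ht)
  have h3 : ∀ a : Fin N, ∃ D : Derivation ℂ K K, ∀ z : s, D z = if (z : K) = t a then 1 else 0 :=
    fun a => Pool.Agent.W602.GT.exists_der _ h2 _
  choose D0 hD0 using h3
  refine ⟨D0, fun a b => ?_⟩
  have h4 := hD0 a ⟨t b, h1 ⟨b, rfl⟩⟩
  rw [h4]
  by_cases hab : a = b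
  · rw [hab]
    simp
  · rw [if_neg hab, if_neg]
    intro h5
    exact hab (ht.injective h5).symm


theorem isAlgebraic_of_mem_adjoin {S : Set K} {g : K} (hg : g ∈ IntermediateField.adjoin ℂ S) :
    IsAlgebraic (IntermediateField.adjoin ℂ S) g :=
  isAlgebraic_algebraMap (⟨g, hg⟩ : IntermediateField.adjoin ℂ S)

theorem aff_mem {x : ∀ i, Fin (n i + 1) → K} (hx0 : ∀ i, x i 0 ≠ 0) (i : Fin r)
    (l : Fin (n i + 1)) : x i l / x i 0 ∈ IntermediateField.adjoin ℂ (Set.range (uu e x)) := by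
  refine Fin.cases ?_ (fun l => ?_) l
  · rw [div_self (hx0 i)]
    exact one_mem _
  · refine IntermediateField.subset_adjoin ℂ _ ⟨e ⟨i, l⟩, ?_⟩
    unfold uu
    rw [Equiv.symm_apply_apply]
    rfl

theorem chg_mem {x : ∀ i, Fin (n i + 1) → K} (hx0 : ∀ i, x i 0 ≠ 0)
    (c : ∀ i, Matrix (Fin (n i + 1)) (Fin (n i + 1)) ℂ) (b : Fin N) :
    uu e (chg c x) b ∈ IntermediateField.adjoin ℂ (Set.range (uu e x)) := by
  have h1 : ∀ i j, chg c x i j / x i 0 ∈ IntermediateField.adjoin ℂ (Set.range (uu e x)) := by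
    intro i j
    have h1 : chg c x i j / x i 0 = ∑ l, algebraMap ℂ K (c i j l) * (x i l / x i 0) := by
      unfold chg
      rw [Finset.sum_div]
      exact Finset.sum_congr rfl fun l _ => by rw [mul_div_assoc]
    rw [h1]
    exact sum_mem fun l _ => mul_mem (IntermediateField.algebraMap_mem _ _) (aff_mem e hx0 i l)
  have h2 : uu e (chg c x) b = (chg c x (e.symm b).1 (e.symm b).2.succ / x (e.symm b).1 0) /
      (chg c x (e.symm b).1 0 / x (e.symm b).1 0) := by
    unfold uu aff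
    rw [div_div_div_cancel_right₀ (hx0 _)]
  rw [h2]
  exact div_mem (h1 _ _) (h1 _ _)

theorem om_change' {x : ∀ i, Fin (n i + 1) → K} (hx0 : ∀ i, x i 0 ≠ 0)
    (hbas : AlgebraicIndependent ℂ (uu e x))
    (c : ∀ i, Matrix (Fin (n i + 1)) (Fin (n i + 1)) ℂ) (hf0 : ∀ i, chg c x i 0 ≠ 0)
    (D : Fin N → Derivation ℂ K K) :
    om e D (chg c x) = algebraMap ℂ K (∏ i, (c i).det) * om e D x := by
  obtain ⟨D0, hd⟩ := exists_dual' hbas
  have hd' : ∀ (a b : (i : Fin r) × Fin (n i)), D0 (e a) (aff x b) = if a = b then 1 else 0 := by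
    intro a b
    have h1 := hd (e a) (e b)
    unfold uu at h1
    rw [Equiv.symm_apply_apply] at h1
    rw [h1]
    simp only [EmbeddingLike.apply_eq_iff_eq]
  -- step 2
  have h2 : (Matrix.of fun a b : Fin N => D a (uu e (chg c x) b)).det =
      (Matrix.of fun a b : Fin N => D a (uu e x b)).det *
      (Matrix.of fun a b : Fin N => D0 a (uu e (chg c x) b)).det := by
    rw [← Matrix.det_mul]
    congr 1
    ext a b
    rw [Matrix.of_apply, Matrix.mul_apply]
    refine der_expand' hd (D a) (isAlgebraic_of_mem_adjoin ?_)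
    exact chg_mem e hx0 c b
  -- step 3
  have h3 : (Matrix.of fun a b : Fin N => D0 a (uu e (chg c x) b)).det =
      ∏ i, (Matrix.of fun k l : Fin (n i) => D0 (e ⟨i, k⟩) (aff (chg c x) ⟨i, l⟩)).det := by
    rw [← Matrix.det_submatrix_equiv_self e]
    have hM : (Matrix.of fun a b : Fin N => D0 a (uu e (chg c x) b)).submatrix e e =
        Matrix.of fun a b : (i : Fin r) × Fin (n i) => D0 (e a) (aff (chg c x) b) := by
      ext a b
      simp only [Matrix.submatrix_apply, Matrix.of_apply]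
      unfold uu
      rw [Equiv.symm_apply_apply]
    rw [hM]
    have hzero : ∀ a b : (i : Fin r) × Fin (n i), a.1 ≠ b.1 →
        D0 (e a) (aff (chg c x) b) = 0 := by
      rintro ⟨i, k⟩ ⟨i', l⟩ hab
      have h5 : ∀ l : Fin (n i'), D0 (e ⟨i, k⟩) (aff x ⟨i', l⟩) = 0 := by
        intro l
        rw [hd', if_neg]
        intro h
        have h' : i = i' := congrArg Sigma.fst h
        exact hab h'
      have h6 := aff_const (D := D0 (e ⟨i, k⟩)) (hx0 i') h5 c l.succ
      have h7 := aff_const (D := D0 (e ⟨i, k⟩)) (hx0 i') h5 c 0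
      have h8 : aff (chg c x) ⟨i', l⟩ =
          (chg c x i' l.succ / x i' 0) / (chg c x i' 0 / x i' 0) := by
        unfold aff
        have := hx0 i'
        field_simp
      rw [h8]
      exact der_div_zero h6 h7
    rw [Matrix.BlockTriangular.det_fintype (b := Sigma.fst) (fun a b hab => by
      rw [Matrix.of_apply]
      exact hzero a b (ne_of_gt hab))]
    refine Finset.prod_congr rfl fun i _ => ?_
    let ε : Fin (n i) ≃ {a : (i : Fin r) × Fin (n i) // a.1 = i} :=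
      { toFun := fun k => ⟨⟨i, k⟩, rfl⟩
        invFun := fun a => Fin.cast (congrArg n a.2) a.1.2
        left_inv := fun k => rfl
        right_inv := fun a => by
          rcases a with ⟨⟨i', k⟩, h⟩
          have h' : i' = i := h
          subst h'
          rfl }
    rw [← Matrix.det_submatrix_equiv_self ε]
    congr 1
  -- step 4
  have h4 : ∀ i, chg c x i 0 ^ (n i + 1) *
      (Matrix.of fun k l : Fin (n i) => D0 (e ⟨i, k⟩) (aff (chg c x) ⟨i, l⟩)).det =
      algebraMap ℂ K (c i).det * x i 0 ^ (n i + 1) := by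
    intro i
    have h5 := Pool.Agent.W930.CG.bw_eq bwa (fun k => D0 (e ⟨i, k⟩)) (chg c x i) (hf0 i)
    have h6 := (bwa (n i) K).2.2 (c i) (fun k => D0 (e ⟨i, k⟩)) (x i)
    have h7 := Pool.Agent.W930.CG.bw_eq bwa (fun k => D0 (e ⟨i, k⟩)) (x i) (hx0 i)
    have h8 : (Matrix.of fun k l : Fin (n i) => D0 (e ⟨i, k⟩) (x i l.succ / x i 0)) = 1 := by
      ext k l
      rw [Matrix.of_apply, Matrix.one_apply]
      have h9 := hd' ⟨i, k⟩ ⟨i, l⟩
      unfold aff at h9
      rw [h9]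
      simp
    rw [h8, Matrix.det_one, mul_one] at h7
    rw [h7] at h6
    rw [← h6]
    exact h5.symm
  unfold om
  rw [h2, h3, map_prod, mul_comm (Matrix.det _), ← mul_assoc, ← Finset.prod_mul_distrib,
    Finset.prod_congr rfl fun i _ => h4 i, Finset.prod_mul_distrib, mul_assoc]


variable {q : Fin r → ℕ} {ℓ : ∀ i, Fin (q i) → Form (n i)}

theorem pp_ord' (d : Fin r → ℕ) (hd : ∀ i, 1 ≤ d i) (p : ∀ i, Bases (ℓ i) → ℕ)
    (hp : ∀ i, ∀ F : Finset (Fin (q i)), Proper (ℓ i) F →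
      d i * (∑ B, p i B * cnt B.1 F) + ∑ B, p i B ≤ d i * ((∑ B, p i B) * rk (ℓ i) F))
    (hspan : ∀ i, Submodule.span ℂ (Set.range (ℓ i)) = ⊤) (t : Fin r → ℕ) (T : ℕ)
    (hT : ∀ i, t i * ∑ B, p i B = T) {x : ∀ i, Fin (n i + 1) → K}
    (hlx : ∀ i k, lf (ℓ i k) (x i) ≠ 0) (hx0 : ∀ i, x i 0 ≠ 0)
    (hbas : AlgebraicIndependent ℂ (uu e x)) (P : Place ℂ K)
    (D : Fin N → Derivation ℂ K K) (ε : ℕ)
    (h1 : ∀ f : ∀ i, Fin (n i + 1) → K, (∀ i j, f i j ≠ 0) →
      Ge P ((∑ i, ∑ j, P.ord (f i j)) - ε) (om e D f))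
    (h2 : ∀ (f : ∀ i, Fin (n i + 1) → K) (a : Fin r → ℤ), (∀ i j, f i j ≠ 0) →
      (∀ i j, P.ord (f i j) = a i) → Ge P (∑ i, ((n i : ℤ) + 1) * a i) (om e D f)) :
    ∃ (a : Fin r → ℤ) (v : ∀ i, Fin (q i) → ℕ),
      (∀ i k, P.ord (lf (ℓ i k) (x i)) = a i + v i k) ∧ (∀ i j, Ge P (a i) (x i j)) ∧
      (∀ i, Submodule.span ℂ (ℓ i '' {k | v i k ≠ 0}) ≠ ⊤) ∧
      ∃ c : ℤ, Ge P c (pp e ℓ x p t T D) ∧
        (((∀ i, v i = 0) ∧ 0 ≤ c) ∨ ((∃ i, v i ≠ 0) ∧ ∀ k : ∀ i, Fin (q i),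
          (T : ℚ) * ∑ i, (v i (k i) : ℚ) / d i ≤ c + ε * T)) := by
  choose a v B' hv hx hsp hB using fun i =>
    factor (d i) (p i) (hp i) (hspan i) (hlx i) P
  refine ⟨a, v, hv, hx, hsp, ?_⟩
  -- the coordinates of the bases
  obtain ⟨c, hc⟩ : ∃ c : ∀ i, Matrix (Fin (n i + 1)) (Fin (n i + 1)) ℂ,
    c = fun i => Matrix.of fun j l : Fin (n i + 1) => ℓ i ((B' i).1 j) (Pi.single l 1) :=
    ⟨_, rfl⟩
  have hdet : ∀ i, (c i).det ≠ 0 := by
    intro i
    rw [hc]
    exact det_ne_zero (m := fun j => ℓ i ((B' i).1 j)) (B' i).2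
  have hf : ∀ i j, chg c x i j = lf (ℓ i ((B' i).1 j)) (x i) := by
    intro i j
    rw [hc]
    rfl
  have hfne : ∀ i j, chg c x i j ≠ 0 := fun i j => by
    rw [hf]
    exact hlx i _
  have hchg := om_change' e hx0 hbas c (fun i => hfne i 0) D
  have hprod : (∏ i, (c i).det) ≠ 0 := Finset.prod_ne_zero_iff.2 fun i _ => hdet i
  have hback : ∀ L : ℤ, Ge P L (om e D (chg c x)) → Ge P L (om e D x) := by
    intro L hL
    rw [hchg] at hL
    have h4 := (Ge.const (P := P) (∏ i, (c i).det)⁻¹).mul hL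
    rw [← mul_assoc, ← map_mul, inv_mul_cancel₀ hprod, map_one, one_mul, zero_add] at h4
    exact h4
  have hordf : ∀ i j, P.ord (chg c x i j) = a i + v i ((B' i).1 j) := fun i j => by
    rw [hf, hv]
  have hden : P.ord (∏ i, den (ℓ i) (x i) (p i) (t i)) =
      ∑ i, (t i : ℤ) * ∑ B, (p i B : ℤ) * ∑ b, (a i + v i (B.1 b)) := by
    rw [ord_prod' P Finset.univ _ fun i _ => den_ne (hlx i) (p i) (t i)]
    refine Finset.sum_congr rfl fun i _ => ?_
    rw [ord_den P (hlx i)]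
    simp only [hv]
  have hterm : ∀ i, (t i : ℤ) * ∑ B, (p i B : ℤ) * ∑ b, (a i + v i (B.1 b)) =
      T * (((n i : ℤ) + 1) * a i) + t i * ∑ B, (p i B : ℤ) * ∑ b, (v i (B.1 b) : ℤ) := by
    intro i
    have e1 : ∀ B : Bases (ℓ i), ∑ b, (a i + (v i (B.1 b) : ℤ)) =
        ((n i : ℤ) + 1) * a i + ∑ b, (v i (B.1 b) : ℤ) := by
      intro B
      rw [Finset.sum_add_distrib, Finset.sum_const, Finset.card_univ, Fintype.card_fin]
      simp
    simp only [e1, mul_add, Finset.sum_add_distrib]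
    rw [← Finset.sum_mul, ← mul_assoc (t i : ℤ), ← hT i]
    push_cast
    ring
  by_cases hv0 : ∀ i, v i = 0
  · have h5 : Ge P (∑ i, ((n i : ℤ) + 1) * a i) (om e D x) := by
      refine hback _ (h2 _ a hfne fun i j => ?_)
      rw [hordf, hv0 i]
      simp
    have h6 := ge_div (dens_ne hlx p t) (h5.pow T)
    rw [hden] at h6
    refine ⟨_, h6, Or.inl ⟨hv0, ?_⟩⟩
    rw [Finset.sum_congr rfl fun i _ => hterm i]
    simp [hv0, Finset.mul_sum]
  · push Not at hv0
    have h5 := hback _ (h1 _ hfne)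
    have h6 := ge_div (dens_ne hlx p t) (h5.pow T)
    rw [hden] at h6
    refine ⟨_, h6, Or.inr ⟨hv0, fun k => ?_⟩⟩
    -- the inequality for each factor
    have h7 : ∀ i, (T : ℚ) * ((v i (k i) : ℚ) / d i) ≤
        T * ∑ b, (v i ((B' i).1 b) : ℚ) - t i * ∑ B, (p i B : ℚ) * ∑ b, (v i (B.1 b) : ℚ) := by
      intro i
      have h8 := hB i (k i)
      have h9 : (d i : ℚ) * (∑ B, (p i B : ℚ) * ∑ b, (v i (B.1 b) : ℚ)) +
          (∑ B, (p i B : ℚ)) * v i (k i) ≤
          d i * ((∑ B, (p i B : ℚ)) * ∑ b, (v i ((B' i).1 b) : ℚ)) := by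
        exact_mod_cast h8
      have hdi : (0 : ℚ) < d i := by exact_mod_cast hd i
      have hTi : (T : ℚ) = t i * ∑ B, (p i B : ℚ) := by
        rw [← hT i]
        push_cast
        rfl
      have h10 := mul_le_mul_of_nonneg_left h9 (by positivity : (0 : ℚ) ≤ t i)
      rw [mul_div_assoc', div_le_iff₀ hdi, hTi]
      nlinarith [h10]
    have h11 : (T : ℚ) * ∑ i, (v i (k i) : ℚ) / d i ≤ ∑ i, ((T : ℚ) *
        ∑ b, (v i ((B' i).1 b) : ℚ) - t i * ∑ B, (p i B : ℚ) * ∑ b, (v i (B.1 b) : ℚ)) := by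
      rw [Finset.mul_sum]
      exact Finset.sum_le_sum fun i _ => h7 i
    refine h11.trans (le_of_eq ?_)
    simp only [hterm, hordf]
    have e2 : ∀ i, ∑ j : Fin (n i + 1), (a i + (v i ((B' i).1 j) : ℤ)) =
        ((n i : ℤ) + 1) * a i + ∑ b, (v i ((B' i).1 b) : ℤ) := by
      intro i
      rw [Finset.sum_add_distrib, Finset.sum_const, Finset.card_univ, Fintype.card_fin]
      simp
    simp only [e2]
    push_cast
    simp only [Finset.sum_add_distrib, Finset.sum_sub_distrib, Finset.mul_sum, mul_add, mul_sub]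
    ring


end Pool.Agent.X180.Multi
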